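import Pool.Agent.Lib_helper35.Bishop.M4b

/-!
# Module M4: growth of the corrected Birkhoff sums
-/

set_option autoImplicit false

open MeasureTheory Metric Set

namespace Pool.Agent.Bishop

/-! ### own term -/

/-- the logarithm of the inverse of the smallest distance -/
noncomputable def AA (c₁ : ℝ) (T : ℕ) : ℝ := Real.log (4 / c₁) + 2 * Real.log (T + 2)

theorem exp_neg_AA {c₁ : ℝ} (hc₁ : 0 < c₁) (T : ℕ) :
    Real.exp (-(AA c₁ T)) = c₁ / (4 * ((T : ℝ) + 2) ^ 2) := by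
  have h : (0 : ℝ) < T + 2 := by positivity
  have e : -(AA c₁ T) = Real.log (c₁ / (4 * ((T : ℝ) + 2) ^ 2)) := by
    unfold AA
    rw [Real.log_div (by norm_num) hc₁.ne', Real.log_div hc₁.ne' (by positivity),
      Real.log_mul (by norm_num) (by positivity), Real.log_pow]
    push_cast
    ring
  rw [e, Real.exp_log (by positivity)]

theorem fr_move (q : ℕ) (β z : ℝ) (t : ℤ) :
    fr (q * (z + t * β)) = fr (q * z + t * dl β q) := by
  have e : (q : ℝ) * (z + t * β) = (q * z + t * dl β q) + ((t * round ((q : ℝ) * β) : ℤ) : ℝ) := by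
    push_cast
    have := dl_eq β q
    linear_combination (t : ℝ) * this
  rw [e, fr_add_int]

theorem kappa_nonneg {c₁ : ℝ} (hc₁ : 0 < c₁) (hc₁' : c₁ ≤ 1 / 4) : 0 ≤ Real.log (4 / c₁) := by
  refine Real.log_nonneg ?_
  rw [le_div_iff₀ hc₁]
  linarith

theorem LT_nonneg (T : ℕ) : 0 ≤ Real.log ((T : ℝ) + 2) :=
  Real.log_nonneg (by
    have : (0 : ℝ) ≤ T := Nat.cast_nonneg T
    linarith)

theorem AA_nonneg {c₁ : ℝ} (hc₁ : 0 < c₁) (hc₁' : c₁ ≤ 1 / 4) (T : ℕ) : 0 ≤ AA c₁ T := by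
  have := kappa_nonneg hc₁ hc₁'
  have := LT_nonneg T
  unfold AA
  linarith

theorem own_term (h3 : M3_Stmt) {β : ℝ} {q b T : ℕ} {c₁ z : ℝ} {t : ℤ} (hq : 1 ≤ q) (hb : 1 ≤ b)
    (hd : dl β q ≠ 0) (hcop : Nat.Coprime q (round ((q : ℝ) * β)).natAbs)
    (hmd : ((b * q : ℕ) : ℝ) * |dl β q| ≤ 1) (hT : |(t : ℝ)| ≤ T) (hmT : b * q ≤ T)
    (hc₁ : 0 < c₁) (hc₁' : c₁ ≤ 1 / 4)
    (hz : c₁ / q ≤ fr (q * z) ∧ fr (q * z) ≤ 1 - c₁ / q) :
    Bs β (b * q) (z + t * β) -
        (kk β q (z + t * β + (b * q : ℕ) * β) - kk β q (z + t * β)) ≤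
      20 * (1 + Real.log q + AA c₁ T) ∧
    ((∀ l < b * q, Real.exp (-(AA c₁ T)) ≤ fr (z + t * β + l * β)) →
      -(20 * (1 + Real.log q + AA c₁ T)) ≤ Bs β (b * q) (z + t * β) -
        (kk β q (z + t * β + (b * q : ℕ) * β) - kk β q (z + t * β))) := by
  have hq1 : (1 : ℝ) ≤ q := by exact_mod_cast hq
  have hq0 : (0 : ℝ) < q := by linarith
  have hbq : q ≤ b * q := Nat.le_mul_of_pos_left q hb
  have hqT : (q : ℝ) ≤ T := by exact_mod_cast hbq.trans hmT
  have hT1 : (1 : ℝ) ≤ T := hq1.trans hqT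
  have hm1 : ((b * q : ℕ) : ℝ) ≤ T := by exact_mod_cast hmT
  have hd0 : 0 < |dl β q| := abs_pos.2 hd
  have hA := AA_nonneg hc₁ hc₁' T
  have hκ := kappa_nonneg hc₁ hc₁'
  have hL := LT_nonneg T
  have e : kk β q (z + t * β + (b * q : ℕ) * β) - kk β q (z + t * β) =
      (Ph q (q * (z + t * β + (b * q : ℕ) * β)) - Ph q (q * (z + t * β))) / (q * dl β q) := by
    unfold kk
    rw [← sub_div]
  rw [e]
  refine h3 β q b hq hb hd hcop hmd (z + t * β) (AA c₁ T) hA ?_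
  rcases lt_or_ge (c₁ / (4 * q)) ((T : ℝ) * |dl β q|) with hs | hs
  · left
    have h4 : Real.log (1 / (q * |dl β q|)) ≤ Real.log (4 / c₁) + Real.log T := by
      rw [← Real.log_mul (by positivity) (by positivity)]
      refine Real.log_le_log (by positivity) ?_
      rw [div_lt_iff₀ (by positivity)] at hs
      rw [div_le_iff₀ (by positivity)]
      calc (1 : ℝ) = c₁ / c₁ := (div_self hc₁.ne').symm
        _ ≤ ((T : ℝ) * |dl β q| * (4 * q)) / c₁ := by gcongr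
        _ = 4 / c₁ * T * (q * |dl β q|) := by ring
    have h5 : Real.log T ≤ Real.log (T + 2) := Real.log_le_log (by linarith) (by linarith)
    unfold AA
    linarith
  · right
    have a1 := fr_orbit hq hT hc₁ hz hs
    have hcq : 0 < c₁ / (4 * q) := by positivity
    have hcq3 : 3 * c₁ / (4 * q) = 3 * (c₁ / (4 * q)) := by ring
    have a2 : fr (q * (z + t * β)) = fr (q * z) + t * dl β q := by
      rw [fr_move, fr_add (by linarith [a1.1]) (by linarith [a1.2])]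
    rw [a2, exp_neg_AA hc₁]
    have h6 : c₁ / (4 * ((T : ℝ) + 2) ^ 2) ≤ c₁ / (4 * q) := by
      have : (q : ℝ) ≤ ((T : ℝ) + 2) ^ 2 := by nlinarith
      gcongr
    have h7 : ((b * q : ℕ) : ℝ) * |dl β q| ≤ c₁ / (4 * q) :=
      (mul_le_mul_of_nonneg_right hm1 (abs_nonneg _)).trans hs
    constructor <;> linarith [a1.1, a1.2]

/-! ### the next best denominator -/

/-- the next best denominator -/
noncomputable def nx (β : ℝ) (q : ℕ) : ℕ := sInf {y | Best β y ∧ q < y}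

theorem nx_spec {β : ℝ} {q q' : ℕ} (hq : Best β q) (h : q' < q) :
    Best β (nx β q') ∧ q' < nx β q' ∧ nx β q' ≤ q := by
  have hne : ({y | Best β y ∧ q' < y} : Set ℕ).Nonempty := ⟨q, hq, h⟩
  have h1 := Nat.sInf_mem hne
  exact ⟨h1.1, h1.2, Nat.sInf_le ⟨hq, h⟩⟩

theorem nx_inj {β : ℝ} {q q' q'' : ℕ} (hq : Best β q) (h' : q' < q) (h'' : q'' < q)
    (b' : Best β q') (b'' : Best β q'') (e : nx β q' = nx β q'') : q' = q'' := by
  by_contra hne
  rcases lt_or_gt_of_ne hne with h | h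
  · have h1 := (nx_spec b'' h).2.2
    have h2 := (nx_spec hq h'').2.1
    omega
  · have h1 := (nx_spec b' h).2.2
    have h2 := (nx_spec hq h').2.1
    omega

theorem sparse_of_best (h1 : M1_Stmt) (β : ℚ) (s : Finset ℕ) (hs : ∀ q ∈ s, Best β q) :
    Sparse s :=
  fun M s' hs' hb => h1.2.2.2.2.2.2 β M s' fun q hq => ⟨hs q (hs' hq), hb q hq⟩

/-- the sum of the cross terms of the small denominators -/
theorem sum_small (h1 : M1_Stmt) (h2 : M2_Stmt) {β : ℚ} {q b : ℕ} (hq : Best β q)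
    (hqQ : q < β.den) (hb : 1 ≤ b) (hmd : ((b * q : ℕ) : ℝ) * |dl β q| ≤ 1) (s : Finset ℕ)
    (hs : ∀ q' ∈ s, Best β q' ∧ q' < q) (x : ℝ) :
    |∑ q' ∈ s, (kk β q' (x + (b * q : ℕ) * β) - kk β q' x)| ≤ 8 * (3 + Real.log q) := by
  classical
  obtain ⟨-, -, hne, -, -, hdn, -⟩ := id h1
  have hq1 : (1 : ℝ) ≤ q := by exact_mod_cast hq.1
  have hq0 : (0 : ℝ) < q := by linarith
  have hlq : 0 ≤ Real.log q := Real.log_nonneg hq1
  have hd := hne β q hq.1 hqQ
  have hsum : ∑ q' ∈ s, nx β q' ≤ 4 * q := by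
    have h4 : ∑ q' ∈ s, nx β q' = ∑ y ∈ s.image (nx β), y := by
      rw [Finset.sum_image]
      intro a ha a' ha' e
      exact nx_inj hq (hs a ha).2 (hs a' ha').2 (hs a ha).1 (hs a' ha').1 e
    rw [h4]
    refine Sparse.sum_le q _ (sparse_of_best h1 β _ ?_) ?_
    · intro y hy
      obtain ⟨a, ha, rfl⟩ := Finset.mem_image.1 hy
      exact (nx_spec hq (hs a ha).2).1
    · intro y hy
      obtain ⟨a, ha, rfl⟩ := Finset.mem_image.1 hy
      exact (nx_spec hq (hs a ha).2).2.2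
  have hsum' : ∑ q' ∈ s, (nx β q' : ℝ) ≤ 4 * q := by exact_mod_cast hsum
  calc |∑ q' ∈ s, (kk β q' (x + (b * q : ℕ) * β) - kk β q' x)|
      ≤ ∑ q' ∈ s, |kk β q' (x + (b * q : ℕ) * β) - kk β q' x| := Finset.abs_sum_le_sum_abs _ _
    _ ≤ ∑ q' ∈ s, (2 * nx β q' / q) * (3 + Real.log q) := by
      refine Finset.sum_le_sum fun q' hq' => ?_
      obtain ⟨hb', hlt⟩ := hs q' hq'
      obtain ⟨n1, n2, n3⟩ := nx_spec hq hlt
      exact cross_small h2 hb'.1 hlt hb hd (hne β q' hb'.1 (hlt.trans hqQ)) hmd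
        (hdn β q' _ hb' n1 n2) x
    _ = (2 / q) * (3 + Real.log q) * ∑ q' ∈ s, (nx β q' : ℝ) := by
      rw [Finset.mul_sum]
      refine Finset.sum_congr rfl fun q' _ => ?_
      ring
    _ ≤ (2 / q) * (3 + Real.log q) * (4 * q) := by gcongr
    _ = 8 * (3 + Real.log q) := by
      field_simp
      ring

/-- the sum of the cross terms of the large denominators -/
theorem sum_big (h1 : M1_Stmt) (h2 : M2_Stmt) {β : ℚ} {m T : ℕ} {c₁ z : ℝ} {t : ℤ}
    (hm : 1 ≤ m) (hT : |(t : ℝ)| ≤ T) (hT' : |(t : ℝ) + m| ≤ T) (hmT : m ≤ T) (hc₁ : 0 < c₁)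
    (hc₁' : c₁ ≤ 1 / 4) (s : Finset ℕ) (hs : ∀ q ∈ s, Best β q ∧ m ≤ q ∧ q < β.den)
    (hz : ∀ q ∈ s, c₁ / q ≤ fr (q * z) ∧ fr (q * z) ≤ 1 - c₁ / q) :
    |∑ q ∈ s, (kk β q (z + t * β + m * β) - kk β q (z + t * β))| ≤
      7 * (6 + Real.log (4 / c₁) + 3 * Real.log (T + 2)) := by
  obtain ⟨-, -, hne, -, hbig, -, -⟩ := id h1
  have hκ := kappa_nonneg hc₁ hc₁'
  have hL := LT_nonneg T
  have hm1 : (1 : ℝ) ≤ m := by exact_mod_cast hm
  have hm0 : (0 : ℝ) < m := by linarith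
  have hmT' : (m : ℝ) ≤ T := by exact_mod_cast hmT
  have hsm : 0 < √(m : ℝ) := Real.sqrt_pos.2 hm0
  have hlm : Real.log m ≤ Real.log (T + 2) := Real.log_le_log hm0 (by linarith)
  have hsum : ∑ q ∈ s, √(1 / (q : ℝ)) ≤ 7 / √(m : ℝ) := by
    refine Sparse.sum_sqrt β.den m s hm (sparse_of_best h1 β s fun q hq => (hs q hq).1)
      (fun q hq => (hs q hq).2.1) (fun q hq => ?_)
    have := (hs q hq).2.2
    omega
  calc |∑ q ∈ s, (kk β q (z + t * β + m * β) - kk β q (z + t * β))|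
      ≤ ∑ q ∈ s, |kk β q (z + t * β + m * β) - kk β q (z + t * β)| :=
        Finset.abs_sum_le_sum_abs _ _
    _ ≤ ∑ q ∈ s, √(m : ℝ) * (6 + Real.log (4 / c₁) + 3 * Real.log (T + 2)) * √(1 / (q : ℝ)) := by
      refine Finset.sum_le_sum fun q hq => ?_
      obtain ⟨hb, hmq, hqQ⟩ := hs q hq
      have hq1 : (1 : ℝ) ≤ q := by exact_mod_cast hb.1
      have hq0 : (0 : ℝ) < q := by linarith
      have hmq' : (m : ℝ) ≤ q := by exact_mod_cast hmq
      obtain ⟨q₁, g1, g2, g3, g4⟩ := hbig β q hb.1 hqQ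
      have g5 : q₁ = q := le_antisymm g2 (g3 q hb le_rfl)
      rw [g5] at g4
      have hmd : (m : ℝ) * |dl β q| ≤ 1 := by
        refine (mul_le_mul_of_nonneg_right ?_ (abs_nonneg _)).trans g4
        linarith
      refine (cross_big h2 hb.1 hm (hne β q hb.1 hqQ) hmd hT hT' hmT hc₁ (hz q hq)).trans ?_
      have hu0 : 0 < (m : ℝ) / q := by positivity
      have hu1 : (m : ℝ) / q ≤ 1 := by rw [div_le_one hq0]; exact hmq'
      have e1 : Real.log q = Real.log m + Real.log (1 / ((m : ℝ) / q)) := by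
        rw [one_div_div, Real.log_div hq0.ne' hm0.ne']; ring
      have e2 : √(m : ℝ) * √(1 / (q : ℝ)) = √((m : ℝ) / q) := by
        rw [← Real.sqrt_mul hm0.le]
        congr 1
        ring
      have h5 := mul_log_inv_le_sqrt hu0
      have h6 : (m : ℝ) / q ≤ √((m : ℝ) / q) := by
        conv_lhs => rw [← Real.mul_self_sqrt hu0.le]
        have h7 : √((m : ℝ) / q) ≤ 1 := Real.sqrt_le_one.2 hu1
        have h8 : 0 ≤ √((m : ℝ) / q) := Real.sqrt_nonneg _
        nlinarith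
      have h9 : 0 ≤ 2 + Real.log (4 / c₁) + 3 * Real.log (T + 2) := by linarith
      calc (m : ℝ) / q * (2 + Real.log (4 / c₁) + Real.log (T + 2) + 2 * Real.log q)
          = (m : ℝ) / q * (2 + Real.log (4 / c₁) + Real.log (T + 2) + 2 * Real.log m) +
            2 * ((m : ℝ) / q * Real.log (1 / ((m : ℝ) / q))) := by rw [e1]; ring
        _ ≤ (m : ℝ) / q * (2 + Real.log (4 / c₁) + 3 * Real.log (T + 2)) +
            2 * (2 * √((m : ℝ) / q)) := by
          refine add_le_add (mul_le_mul_of_nonneg_left (by linarith) hu0.le) (by linarith)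
        _ ≤ √((m : ℝ) / q) * (2 + Real.log (4 / c₁) + 3 * Real.log (T + 2)) +
            2 * (2 * √((m : ℝ) / q)) := by gcongr
        _ = √(m : ℝ) * (6 + Real.log (4 / c₁) + 3 * Real.log (T + 2)) * √(1 / (q : ℝ)) := by
          rw [← e2]; ring
    _ = √(m : ℝ) * (6 + Real.log (4 / c₁) + 3 * Real.log (T + 2)) * ∑ q ∈ s, √(1 / (q : ℝ)) := by
      rw [Finset.mul_sum]
    _ ≤ √(m : ℝ) * (6 + Real.log (4 / c₁) + 3 * Real.log (T + 2)) * (7 / √(m : ℝ)) := by
      have : 0 ≤ 6 + Real.log (4 / c₁) + 3 * Real.log (T + 2) := by linarith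
      gcongr
    _ = 7 * (6 + Real.log (4 / c₁) + 3 * Real.log (T + 2)) := by
      field_simp

/-! ### one digit -/

/-- the corrected sums without the term of the last denominator -/
noncomputable def DD (β : ℚ) (q₀ : ℕ) (n : ℕ) (x : ℝ) : ℝ :=
  Bs β n x - ∑ q ∈ JJ β q₀, (kk β q (x + n * β) - kk β q x)

/-- the error of one digit -/
noncomputable def KK (c c₁ : ℝ) (T : ℕ) : ℝ :=
  20 * (1 + Real.log (T + 2) + AA c₁ T) + (1 / c) * (1 + AA c₁ T) +
    7 * (6 + Real.log (4 / c₁) + 3 * Real.log (T + 2)) + 8 * (3 + Real.log (T + 2))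

theorem step (h1 : M1_Stmt) (h2 : M2_Stmt) (h3 : M3_Stmt) {β : ℚ} {q₀ q b n T : ℕ}
    {c c₁ z : ℝ} {t : ℤ} (hc : 0 < c)
    (hlow : ∀ q : ℕ, 1 ≤ q → q < q₀ → c ≤ |dl β q|) (hc₁ : 0 < c₁) (hc₁' : c₁ ≤ 1 / 4)
    (hz : z ∈ EE β q₀ c₁) (hTQ : T < β.den) (hq : Best β q) (hqn : q ≤ n)
    (hmax : ∀ q', Best β q' → q' ≤ n → q' ≤ q) (hnd : ((n : ℝ) + 1) * |dl β q| ≤ 1)
    (hb : 1 ≤ b) (hbn : b * q ≤ n) (hnT : n ≤ T) (ht : |(t : ℝ)| ≤ T)
    (ht' : |(t : ℝ) + (b * q : ℕ)| ≤ T) :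
    DD β q₀ (b * q) (z + t * β) ≤ KK c c₁ T ∧
    ((∀ l < b * q, Real.exp (-(AA c₁ T)) ≤ fr (z + t * β + l * β)) →
      -(KK c c₁ T) ≤ DD β q₀ (b * q) (z + t * β)) := by
  classical
  obtain ⟨-, -, hne, hcop, -, -, -⟩ := id h1
  have hκ := kappa_nonneg hc₁ hc₁'
  have hL := LT_nonneg T
  have hA := AA_nonneg hc₁ hc₁' T
  have hqQ : q < β.den := by omega
  have hq1 : (1 : ℝ) ≤ q := by exact_mod_cast hq.1
  have hqT : (q : ℝ) ≤ T := by exact_mod_cast hqn.trans hnT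
  have hlq : Real.log q ≤ Real.log (T + 2) := Real.log_le_log (by linarith) (by linarith)
  have hd := hne β q hq.1 hqQ
  have hm : 1 ≤ b * q := Nat.mul_pos hb hq.1
  have hbn' : ((b * q : ℕ) : ℝ) ≤ n := by exact_mod_cast hbn
  have hmd : ((b * q : ℕ) : ℝ) * |dl β q| ≤ 1 := by
    refine (mul_le_mul_of_nonneg_right ?_ (abs_nonneg _)).trans hnd
    linarith
  -- the increments
  set g : ℕ → ℝ := fun q' => kk β q' (z + t * β + (b * q : ℕ) * β) - kk β q' (z + t * β) with hg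
  have hsmall : |∑ q' ∈ (JJ β q₀).filter (fun q' => q' < q), g q'| ≤ 8 * (3 + Real.log q) := by
    refine sum_small h1 h2 hq hqQ hb hmd _ (fun q' hq' => ?_) _
    obtain ⟨a1, a2⟩ := Finset.mem_filter.1 hq'
    exact ⟨(mem_JJ.1 a1).2.2, a2⟩
  have hbigs : |∑ q' ∈ (JJ β q₀).filter (fun q' => q < q'), g q'| ≤
      7 * (6 + Real.log (4 / c₁) + 3 * Real.log (T + 2)) := by
    refine sum_big h1 h2 hm ht ht' (hbn.trans hnT) hc₁ hc₁' _ (fun q' hq' => ?_)
      (fun q' hq' => ?_)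
    · obtain ⟨a1, a2⟩ := Finset.mem_filter.1 hq'
      refine ⟨(mem_JJ.1 a1).2.2, ?_, (mem_JJ.1 a1).1⟩
      by_contra hcon
      have := hmax q' (mem_JJ.1 a1).2.2 (by omega)
      omega
    · obtain ⟨a1, a2⟩ := Finset.mem_filter.1 hq'
      exact hz.2 q' (mem_JJ.1 a1).2.2 (mem_JJ.1 a1).2.1
  have hsplit : ∑ q' ∈ JJ β q₀, g q' = ∑ q' ∈ (JJ β q₀).filter (fun q' => q' < q), g q' +
      ∑ q' ∈ (JJ β q₀).filter (fun q' => q < q'), g q' + (if q₀ ≤ q then g q else 0) := by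
    rw [← Finset.sum_filter_add_sum_filter_not (JJ β q₀) (fun q' => q' < q) g, add_assoc]
    congr 1
    rw [← Finset.sum_filter_add_sum_filter_not ((JJ β q₀).filter (fun q' => ¬ q' < q))
      (fun q' => q < q') g]
    congr 1
    · congr 1
      ext q'
      simp only [Finset.mem_filter]
      constructor
      · rintro ⟨⟨a1, -⟩, a2⟩; exact ⟨a1, a2⟩
      · rintro ⟨a1, a2⟩; exact ⟨⟨a1, by omega⟩, a2⟩
    · split_ifs with h
      · have : ((JJ β q₀).filter (fun q' => ¬ q' < q)).filter (fun q' => ¬ q < q') = {q} := by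
          ext q'
          simp only [Finset.mem_filter, Finset.mem_singleton, mem_JJ]
          constructor
          · rintro ⟨⟨-, a1⟩, a2⟩; omega
          · rintro rfl; exact ⟨⟨⟨hqQ, h, hq⟩, by omega⟩, by omega⟩
        rw [this, Finset.sum_singleton]
      · refine Finset.sum_eq_zero fun q' hq' => ?_
        exfalso
        simp only [Finset.mem_filter, mem_JJ] at hq'
        omega
  -- the own term
  have hown : Bs β (b * q) (z + t * β) - (if q₀ ≤ q then g q else 0) ≤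
      20 * (1 + Real.log (T + 2) + AA c₁ T) + (1 / c) * (1 + AA c₁ T) ∧
      ((∀ l < b * q, Real.exp (-(AA c₁ T)) ≤ fr (z + t * β + l * β)) →
        -(20 * (1 + Real.log (T + 2) + AA c₁ T) + (1 / c) * (1 + AA c₁ T)) ≤
        Bs β (b * q) (z + t * β) - (if q₀ ≤ q then g q else 0)) := by
    have hcpos : 0 ≤ (1 / c) * (1 + AA c₁ T) := by positivity
    split_ifs with h
    · obtain ⟨o1, o2⟩ := own_term h3 hq.1 hb hd (hcop β q hq) hmd ht (hbn.trans hnT) hc₁ hc₁'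
        (hz.2 q hq h)
      refine ⟨o1.trans (by linarith), fun hl => le_trans (by linarith) (o2 hl)⟩
    · have hmc : ((b * q : ℕ) : ℝ) ≤ 1 / c := by
        rw [le_div_iff₀ hc]
        calc ((b * q : ℕ) : ℝ) * c ≤ ((b * q : ℕ) : ℝ) * |dl β q| := by
              gcongr
              exact hlow q hq.1 (by omega)
          _ ≤ 1 := hmd
      rw [sub_zero]
      constructor
      · have h4 : Bs β (b * q) (z + t * β) ≤ ((b * q : ℕ) : ℝ) * 1 := by
          unfold Bs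
          calc ∑ l ∈ Finset.range (b * q), vv (z + t * β + l * β)
              ≤ ∑ l ∈ Finset.range (b * q), (1 : ℝ) := Finset.sum_le_sum fun l _ => vv_le _
            _ = ((b * q : ℕ) : ℝ) * 1 := by rw [Finset.sum_const, Finset.card_range, nsmul_eq_mul]
        have h5 : (1 : ℝ) / c ≤ (1 / c) * (1 + AA c₁ T) := by
          have : 0 ≤ (1 / c) * AA c₁ T := by positivity
          linarith
        linarith
      · intro hl
        have h4 : ((b * q : ℕ) : ℝ) * (-(1 + AA c₁ T)) ≤ Bs β (b * q) (z + t * β) := by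
          unfold Bs
          calc ((b * q : ℕ) : ℝ) * (-(1 + AA c₁ T))
              = ∑ l ∈ Finset.range (b * q), (-(1 + AA c₁ T)) := by
                rw [Finset.sum_const, Finset.card_range, nsmul_eq_mul]
            _ ≤ ∑ l ∈ Finset.range (b * q), vv (z + t * β + l * β) := by
              refine Finset.sum_le_sum fun l hl' => ?_
              have h5 := hl l (Finset.mem_range.1 hl')
              have h6 : -(AA c₁ T) ≤ Real.log (fr (z + t * β + l * β)) := by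
                rw [Real.le_log_iff_exp_le (fr_pos _)]
                exact h5
              unfold vv
              linarith
        have h5 : ((b * q : ℕ) : ℝ) * (1 + AA c₁ T) ≤ (1 / c) * (1 + AA c₁ T) := by gcongr
        have h6 : 0 ≤ 20 * (1 + Real.log (T + 2) + AA c₁ T) := by positivity
        linarith
  have hs' := abs_le.1 hsmall
  have hb' := abs_le.1 hbigs
  unfold DD KK
  rw [show ∑ q' ∈ JJ β q₀, (kk β q' (z + t * β + (b * q : ℕ) * β) - kk β q' (z + t * β)) =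
    ∑ q' ∈ JJ β q₀, g q' from rfl, hsplit]
  constructor
  · linarith [hown.1, hs'.1, hb'.1]
  · intro hl
    linarith [hown.2 hl, hs'.2, hb'.2]

/-! ### the recursion -/

theorem DD_add (β : ℚ) (q₀ : ℕ) (n m : ℕ) (x : ℝ) :
    DD β q₀ (n + m) x = DD β q₀ n x + DD β q₀ m (x + n * β) := by
  unfold DD
  have h2 : ∑ q ∈ JJ β q₀, (kk β q (x + ((n + m : ℕ) : ℝ) * β) - kk β q x) =
      ∑ q ∈ JJ β q₀, (kk β q (x + n * β) - kk β q x) +
      ∑ q ∈ JJ β q₀, (kk β q (x + n * β + m * β) - kk β q (x + n * β)) := by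
    rw [← Finset.sum_add_distrib]
    refine Finset.sum_congr rfl fun q _ => ?_
    have e : x + ((n + m : ℕ) : ℝ) * β = x + n * β + m * β := by push_cast; ring
    rw [e]; ring
  rw [Bs_add, h2]
  ring

theorem DD_zero (β : ℚ) (q₀ : ℕ) (x : ℝ) : DD β q₀ 0 x = 0 := by
  unfold DD Bs
  simp

theorem log_step {n r : ℕ} (h : 2 * r < n) :
    1 + 2 * Real.log ((r : ℝ) + 1) ≤ 2 * Real.log ((n : ℝ) + 1) := by
  have h1 : 2 * ((r : ℝ) + 1) ≤ (n : ℝ) + 1 := by
    have : 2 * r + 1 ≤ n := h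
    have : 2 * (r : ℝ) + 1 ≤ n := by exact_mod_cast this
    linarith
  have h2 : Real.log 2 + Real.log ((r : ℝ) + 1) ≤ Real.log ((n : ℝ) + 1) := by
    rw [← Real.log_mul (by norm_num) (by positivity)]
    exact Real.log_le_log (by positivity) h1
  have h3 : (1 : ℝ) / 2 ≤ Real.log 2 := by
    have := Real.log_two_gt_d9
    linarith
  linarith

theorem KK_nonneg {c c₁ : ℝ} (hc : 0 < c) (hc₁ : 0 < c₁) (hc₁' : c₁ ≤ 1 / 4) (T : ℕ) :
    0 ≤ KK c c₁ T := by
  have hκ := kappa_nonneg hc₁ hc₁'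
  have hL := LT_nonneg T
  have hA := AA_nonneg hc₁ hc₁' T
  unfold KK
  positivity

/-- upper bound, anchored at the end -/
theorem upper (h1 : M1_Stmt) (h2 : M2_Stmt) (h3 : M3_Stmt) {β : ℚ} {q₀ T : ℕ}
    {c c₁ z : ℝ} (hc : 0 < c)
    (hlow : ∀ q : ℕ, 1 ≤ q → q < q₀ → c ≤ |dl β q|) (hc₁ : 0 < c₁) (hc₁' : c₁ ≤ 1 / 4)
    (hz : z ∈ EE β q₀ c₁) (hTQ : T < β.den) (n : ℕ) : n ≤ T →
    DD β q₀ n (z + ((-(n : ℤ) : ℤ) : ℝ) * β) ≤ KK c c₁ T * (2 * Real.log ((n : ℝ) + 1)) := by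
  induction n using Nat.strong_induction_on with
  | _ n ih =>
    intro hnT
    have hK := KK_nonneg hc hc₁ hc₁' T
    rcases Nat.eq_zero_or_pos n with rfl | hpos
    · rw [DD_zero]
      simp
    · obtain ⟨q, hq, hqn, hmax, hnd⟩ := h1.2.2.2.2.1 β n hpos (by omega)
      have hqpos : 0 < q := hq.1
      have hbpos : 1 ≤ n / q := Nat.div_pos hqn hqpos
      have hdm : n / q * q + n % q = n := by
        rw [mul_comm]; exact Nat.div_add_mod n q
      have hr : n % q < q := Nat.mod_lt n hqpos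
      have hmq : q ≤ n / q * q := Nat.le_mul_of_pos_left q hbpos
      obtain ⟨r, hr'⟩ : ∃ r, r = n % q := ⟨_, rfl⟩
      obtain ⟨b, hb'⟩ : ∃ b, b = n / q := ⟨_, rfl⟩
      rw [← hr', ← hb'] at hdm
      rw [← hr'] at hr
      rw [← hb'] at hbpos hmq
      have hnT' : (n : ℝ) ≤ T := by exact_mod_cast hnT
      have hst := step h1 h2 h3 (t := -(n : ℤ)) hc hlow hc₁ hc₁' hz hTQ hq hqn hmax hnd hbpos
        (by omega) hnT (by
          push_cast
          rw [abs_neg, abs_of_nonneg (Nat.cast_nonneg n)]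
          exact hnT') (by
          have e : (((-(n : ℤ) : ℤ)) : ℝ) + ((b * q : ℕ) : ℝ) = -(r : ℝ) := by
            have : (n : ℝ) = ((b * q : ℕ) : ℝ) + r := by exact_mod_cast hdm.symm
            push_cast at this ⊢
            linarith
          rw [e, abs_neg, abs_of_nonneg (Nat.cast_nonneg r)]
          have : r ≤ T := by omega
          exact_mod_cast this)
      have hrec := ih r (by omega) (by omega)
      have e1 : DD β q₀ n (z + ((-(n : ℤ) : ℤ) : ℝ) * β) =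
          DD β q₀ (b * q) (z + ((-(n : ℤ) : ℤ) : ℝ) * β) +
          DD β q₀ r (z + ((-(r : ℤ) : ℤ) : ℝ) * β) := by
        have e2 : z + ((-(n : ℤ) : ℤ) : ℝ) * β + ((b * q : ℕ) : ℝ) * β =
            z + ((-(r : ℤ) : ℤ) : ℝ) * β := by
          have : (n : ℝ) = ((b * q : ℕ) : ℝ) + r := by exact_mod_cast hdm.symm
          push_cast at this ⊢
          rw [this]
          ring
        have e3 := DD_add β q₀ (b * q) r (z + ((-(n : ℤ) : ℤ) : ℝ) * β)
        rw [e2, hdm] at e3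
        exact e3
      rw [e1]
      have h4 := log_step (n := n) (r := r) (by omega)
      calc _ ≤ KK c c₁ T + KK c c₁ T * (2 * Real.log ((r : ℝ) + 1)) := add_le_add hst.1 hrec
        _ = KK c c₁ T * (1 + 2 * Real.log ((r : ℝ) + 1)) := by ring
        _ ≤ KK c c₁ T * (2 * Real.log ((n : ℝ) + 1)) := by gcongr

/-- lower bound, anchored at the start -/
theorem lower (h1 : M1_Stmt) (h2 : M2_Stmt) (h3 : M3_Stmt) {β : ℚ} {q₀ T : ℕ}
    {c c₁ z : ℝ} (hc : 0 < c)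
    (hlow : ∀ q : ℕ, 1 ≤ q → q < q₀ → c ≤ |dl β q|) (hc₁ : 0 < c₁) (hc₁' : c₁ ≤ 1 / 4)
    (hz : z ∈ EE β q₀ c₁) (hTQ : T < β.den) (n : ℕ) : ∀ j : ℕ, j + n ≤ T →
    -(KK c c₁ T * (2 * Real.log ((n : ℝ) + 1))) ≤ DD β q₀ n (z + j * β) := by
  induction n using Nat.strong_induction_on with
  | _ n ih =>
    intro j hjT
    have hK := KK_nonneg hc hc₁ hc₁' T
    rcases Nat.eq_zero_or_pos n with rfl | hpos
    · rw [DD_zero]
      simp
    · obtain ⟨q, hq, hqn, hmax, hnd⟩ := h1.2.2.2.2.1 β n hpos (by omega)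
      have hqpos : 0 < q := hq.1
      have hbpos : 1 ≤ n / q := Nat.div_pos hqn hqpos
      have hdm : n / q * q + n % q = n := by
        rw [mul_comm]; exact Nat.div_add_mod n q
      have hr : n % q < q := Nat.mod_lt n hqpos
      have hmq : q ≤ n / q * q := Nat.le_mul_of_pos_left q hbpos
      obtain ⟨r, hr'⟩ : ∃ r, r = n % q := ⟨_, rfl⟩
      obtain ⟨b, hb'⟩ : ∃ b, b = n / q := ⟨_, rfl⟩
      rw [← hr', ← hb'] at hdm
      rw [← hr'] at hr
      rw [← hb'] at hbpos hmq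
      have hst := step h1 h2 h3 (t := (j : ℤ)) hc hlow hc₁ hc₁' hz hTQ hq hqn hmax hnd hbpos
        (by omega) (by omega) (by
          push_cast
          rw [abs_of_nonneg (Nat.cast_nonneg j)]
          have : j ≤ T := by omega
          exact_mod_cast this) (by
          have e : (((j : ℤ)) : ℝ) + ((b * q : ℕ) : ℝ) = ((j + b * q : ℕ) : ℝ) := by
            push_cast; ring
          rw [e, abs_of_nonneg (Nat.cast_nonneg _)]
          have : j + b * q ≤ T := by omega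
          exact_mod_cast this)
      have hst2 := hst.2 (by
        intro l hl
        rw [exp_neg_AA hc₁]
        have h5 := hz.1 (j + l) (by omega)
        have e : z + ((j : ℤ) : ℝ) * β + l * β = z + ((j + l : ℕ) : ℝ) * β := by
          push_cast; ring
        rw [e]
        refine le_trans ?_ h5
        have h6 : (((j + l : ℕ) : ℝ) + 1) ≤ T := by
          have : j + l + 1 ≤ T := by omega
          exact_mod_cast this
        have h7 : (((j + l : ℕ) : ℝ) + 1) ^ 2 ≤ 4 * ((T : ℝ) + 2) ^ 2 := by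
          have h8 : (0 : ℝ) ≤ ((j + l : ℕ) : ℝ) := Nat.cast_nonneg _
          nlinarith
        have h9 : (0 : ℝ) < (((j + l : ℕ) : ℝ) + 1) ^ 2 := by positivity
        gcongr)
      rw [Int.cast_natCast] at hst2
      have hrec := ih r (by omega) (j + b * q) (by omega)
      have e1 : DD β q₀ n (z + j * β) =
          DD β q₀ (b * q) (z + j * β) + DD β q₀ r (z + ((j + b * q : ℕ) : ℝ) * β) := by
        have e3 := DD_add β q₀ (b * q) r (z + j * β)
        rw [hdm] at e3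
        rw [e3]
        congr 2
        push_cast
        ring
      rw [e1]
      have h4 := log_step (n := n) (r := r) (by omega)
      calc -(KK c c₁ T * (2 * Real.log ((n : ℝ) + 1)))
          ≤ -(KK c c₁ T * (1 + 2 * Real.log ((r : ℝ) + 1))) := by
            have := mul_le_mul_of_nonneg_left h4 hK
            linarith
        _ = -(KK c c₁ T) + -(KK c c₁ T * (2 * Real.log ((r : ℝ) + 1))) := by ring
        _ ≤ _ := add_le_add hst2 hrec

/-! ### the last denominator -/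

theorem last_term (h2 : M2_Stmt) {Q n : ℕ} (hn : n < Q) {c₁ y : ℝ} (hc₁ : 0 < c₁)
    (hc₁' : c₁ ≤ 1 / 4) (hy : c₁ / Q ≤ fr y) :
    |(n : ℝ) * (om Q y / Q)| ≤ 3 + Real.log (4 / c₁) + 2 * Real.log (n + 2) := by
  have hκ := kappa_nonneg hc₁ hc₁'
  have hL := LT_nonneg n
  have hQ : 1 ≤ Q := by omega
  have hQ0 : (0 : ℝ) < Q := by exact_mod_cast hQ
  have hom := om_bound h2 hQ hc₁ (y := y) (by
    refine le_trans ?_ hy
    gcongr
    linarith)
  rcases Nat.eq_zero_or_pos n with rfl | hpos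
  · rw [Nat.cast_zero, zero_mul, abs_zero]
    rw [Nat.cast_zero] at hL
    positivity
  · have hn0 : (0 : ℝ) < n := by exact_mod_cast hpos
    have hnQ : (n : ℝ) ≤ Q := by exact_mod_cast hn.le
    have hu0 : 0 < (n : ℝ) / Q := by positivity
    have hu1 : (n : ℝ) / Q ≤ 1 := by rw [div_le_one hQ0]; exact hnQ
    have e1 : Real.log Q = Real.log n + Real.log (1 / ((n : ℝ) / Q)) := by
      rw [one_div_div, Real.log_div hQ0.ne' hn0.ne']; ring
    have h5 := mul_log_inv_le_one hu0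
    have h6 : Real.log n ≤ Real.log (n + 2) := Real.log_le_log hn0 (by linarith)
    have h6' : 0 ≤ Real.log n := Real.log_natCast_nonneg n
    rw [abs_mul, abs_div, abs_of_pos hn0, abs_of_pos hQ0]
    calc (n : ℝ) * (|om Q y| / Q) = (n : ℝ) / Q * |om Q y| := by ring
      _ ≤ (n : ℝ) / Q * (1 + 2 * Real.log Q + Real.log (4 / c₁)) := by gcongr
      _ = (n : ℝ) / Q * (1 + 2 * Real.log n + Real.log (4 / c₁)) +
          2 * ((n : ℝ) / Q * Real.log (1 / ((n : ℝ) / Q))) := by rw [e1]; ring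
      _ ≤ 1 * (1 + 2 * Real.log n + Real.log (4 / c₁)) + 2 * 1 := by
        refine add_le_add (mul_le_mul_of_nonneg_right hu1 (by positivity)) (by linarith)
      _ ≤ 3 + Real.log (4 / c₁) + 2 * Real.log (n + 2) := by linarith

/-! ### the good set is periodic -/

theorem EE_add_int {β : ℚ} {q₀ : ℕ} {c₁ z : ℝ} (k : ℤ) (hz : z + k ∈ EE β q₀ c₁) :
    z ∈ EE β q₀ c₁ := by
  refine ⟨fun l hl => ?_, fun q hq hq₀ => ?_⟩
  · have := hz.1 l hl
    rwa [add_right_comm, fr_add_int] at this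
  · have := hz.2 q hq hq₀
    have e : (q : ℝ) * (z + k) = q * z + ((q * k : ℤ) : ℝ) := by push_cast; ring
    rwa [e, fr_add_int] at this

theorem EE_int_iff {β : ℚ} {q₀ : ℕ} {c₁ z : ℝ} (k : ℤ) :
    z + k ∈ EE β q₀ c₁ ↔ z ∈ EE β q₀ c₁ := by
  refine ⟨EE_add_int k, fun h => ?_⟩
  refine EE_add_int (-k) ?_
  rwa [Int.cast_neg, add_neg_cancel_right]

/-- the constant of the theorem -/
theorem final_const {c c₁ : ℝ} (hc : 0 < c) (hc₁ : 0 < c₁) (hc₁' : c₁ ≤ 1 / 4) (n : ℕ) :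
    KK c c₁ n * (2 * Real.log ((n : ℝ) + 1)) +
      (3 + Real.log (4 / c₁) + 2 * Real.log (n + 2)) ≤
    (2 * (2 * ((20 + 1 / c) * (3 + Real.log (4 / c₁)) + 100 + 7 * Real.log (4 / c₁)) +
      5 + Real.log (4 / c₁))) * (1 + Real.log (n + 2) ^ 2) := by
  have hκ := kappa_nonneg hc₁ hc₁'
  have hL := LT_nonneg n
  have hlog : Real.log ((n : ℝ) + 1) ≤ Real.log (n + 2) :=
    Real.log_le_log (by positivity) (by linarith)
  have hlog0 : 0 ≤ Real.log ((n : ℝ) + 1) := Real.log_nonneg (by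
    have : (0 : ℝ) ≤ n := Nat.cast_nonneg n
    linarith)
  have hK0 := KK_nonneg hc hc₁ hc₁' n
  obtain ⟨κ, hκ'⟩ : ∃ κ, κ = Real.log (4 / c₁) := ⟨_, rfl⟩
  obtain ⟨L, hL'⟩ : ∃ L, L = Real.log ((n : ℝ) + 2) := ⟨_, rfl⟩
  obtain ⟨e, he⟩ : ∃ e, e = 1 / c := ⟨_, rfl⟩
  have he0 : 0 < e := by rw [he]; positivity
  have hK1 : KK c c₁ n ≤ ((20 + 1 / c) * (3 + Real.log (4 / c₁)) + 100 +
      7 * Real.log (4 / c₁)) * (1 + Real.log (n + 2)) := by
    unfold KK AA
    rw [← hκ', ← hL', ← he]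
    rw [← hκ'] at hκ
    rw [← hL'] at hL
    have a1 : 0 ≤ κ * L := mul_nonneg hκ hL
    have a2 : 0 ≤ e * κ := mul_nonneg he0.le hκ
    have a3 : 0 ≤ e * L := mul_nonneg he0.le hL
    have a4 : 0 ≤ e * (κ * L) := mul_nonneg he0.le a1
    nlinarith
  obtain ⟨K₁, hK₁⟩ : ∃ K₁, K₁ = (20 + 1 / c) * (3 + Real.log (4 / c₁)) + 100 +
      7 * Real.log (4 / c₁) := ⟨_, rfl⟩
  have hK₁0 : 0 ≤ K₁ := by rw [hK₁]; positivity
  rw [← hK₁] at hK1 ⊢
  rw [← hκ'] at hκ
  rw [← hL'] at hL hK1 hlog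
  rw [← hκ', ← hL']
  calc KK c c₁ n * (2 * Real.log ((n : ℝ) + 1)) + (3 + κ + 2 * L)
      ≤ (K₁ * (1 + L)) * (2 * L) + (3 + κ + 2 * L) := by gcongr
    _ ≤ (2 * (2 * K₁ + 5 + κ)) * (1 + L ^ 2) := by
      nlinarith [mul_nonneg hK₁0 hL, mul_nonneg hK₁0 (sq_nonneg (L - 1)), sq_nonneg (L - 1),
        mul_nonneg hκ (sq_nonneg L), mul_nonneg hK₁0 (sq_nonneg L), sq_nonneg L]

theorem M4 (h1 : M1_Stmt) (h2 : M2_Stmt) (h3 : M3_Stmt) : M4_Stmt := by
  intro q₀ c c₁ hq₀ hc hc₁ hc₁'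
  have hκ := kappa_nonneg hc₁ hc₁'
  refine ⟨2 * (2 * ((20 + 1 / c) * (3 + Real.log (4 / c₁)) + 100 + 7 * Real.log (4 / c₁)) +
      5 + Real.log (4 / c₁)), by positivity, ?_⟩
  intro β hlow n x
  have hP := h2.2.2.2.2.2.1
  obtain ⟨hbest, hdl0⟩ := h1.2.1 β
  have hQq₀ : q₀ ≤ β.den := by
    by_contra hcon
    have := hlow β.den hbest.1 (by omega)
    rw [hdl0, abs_zero] at this
    linarith
  obtain ⟨hm1, k, hk⟩ := Ls_mod hP β q₀ n x
  obtain ⟨r, hr⟩ : ∃ r, r = n % β.den := ⟨_, rfl⟩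
  have hrQ : r < β.den := by rw [hr]; exact Nat.mod_lt _ β.den_pos
  have hrn : (r : ℝ) ≤ n := by
    rw [hr]; exact_mod_cast Nat.mod_le n β.den
  rw [← hr] at hm1 hk
  have hmono : 1 + Real.log ((r : ℝ) + 2) ^ 2 ≤ 1 + Real.log ((n : ℝ) + 2) ^ 2 := by
    have h4 : Real.log ((r : ℝ) + 2) ≤ Real.log ((n : ℝ) + 2) :=
      Real.log_le_log (by positivity) (by linarith)
    have h5 := LT_nonneg r
    gcongr
  have hfc := final_const hc hc₁ hc₁' r
  have hfin := hfc.trans (mul_le_mul_of_nonneg_left hmono (by positivity :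
    (0 : ℝ) ≤ 2 * (2 * ((20 + 1 / c) * (3 + Real.log (4 / c₁)) + 100 +
      7 * Real.log (4 / c₁)) + 5 + Real.log (4 / c₁))))
  have hLs : Ls β q₀ r x = DD β q₀ r x - r * (om β.den (β.den * x) / β.den) := by
    unfold Ls DD
    ring
  constructor
  · intro hz
    rw [hk, EE_int_iff] at hz
    have hzQ := hz.2 β.den hbest hQq₀
    have h6 := om_den β x r
    rw [Int.cast_natCast] at h6
    have h7 := last_term h2 hrQ hc₁ hc₁' hzQ.1
    rw [h6] at h7
    have h8 := upper h1 h2 h3 hc hlow hc₁ hc₁' hz hrQ r le_rfl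
    have e : x + (r : ℝ) * β + ((-(r : ℤ) : ℤ) : ℝ) * β = x := by
      push_cast; ring
    rw [e] at h8
    rw [hm1, hLs]
    linarith [(abs_le.1 h7).1]
  · intro hz
    have hzQ := hz.2 β.den hbest hQq₀
    have h7 := last_term h2 hrQ hc₁ hc₁' hzQ.1
    have h8 := lower h1 h2 h3 hc hlow hc₁ hc₁' hz hrQ r 0 (by omega)
    have e : x + ((0 : ℕ) : ℝ) * β = x := by
      push_cast; ring
    rw [e] at h8
    rw [hm1, hLs]
    linarith [(abs_le.1 h7).2]

end Pool.Agent.Bishop
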