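import Pool.Agent.Lib_helper47.Bishop.Defs

/-!
# Module M4, part a: periodicity, cocycle property
-/

set_option autoImplicit false

open MeasureTheory Metric Set

namespace Pool.Agent.Bishop

/-! ### `fr` -/

theorem fr_pos (x : ℝ) : 0 < fr x := by
  have := Int.fract_lt_one (-x)
  unfold fr; linarith

theorem fr_le_one (x : ℝ) : fr x ≤ 1 := by
  have := Int.fract_nonneg (-x)
  unfold fr; linarith

theorem fr_add_int (x : ℝ) (n : ℤ) : fr (x + n) = fr x := by
  unfold fr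
  rw [neg_add, ← sub_eq_add_neg, Int.fract_sub_intCast]

theorem fr_add_one (x : ℝ) : fr (x + 1) = fr x := by
  have := fr_add_int x 1
  simpa using this

/-- `x - fr x` is an integer -/
theorem exists_int_fr (x : ℝ) : ∃ k : ℤ, x = fr x + k := by
  refine ⟨-(⌊-x⌋ + 1), ?_⟩
  unfold fr Int.fract
  push_cast
  ring

theorem fr_eq_self {x : ℝ} (h0 : 0 < x) (h1 : x ≤ 1) : fr x = x := by
  unfold fr
  have : Int.fract (-x) = 1 - x := by
    rw [Int.fract_eq_iff]
    refine ⟨by linarith, by linarith, -1, by push_cast; ring⟩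
  rw [this]; ring

theorem fr_add {x t : ℝ} (h0 : 0 < fr x + t) (h1 : fr x + t ≤ 1) : fr (x + t) = fr x + t := by
  obtain ⟨k, hk⟩ := exists_int_fr x
  have : x + t = (fr x + t) + k := by linarith
  rw [this, fr_add_int, fr_eq_self h0 h1]

theorem vv_add_int (x : ℝ) (n : ℤ) : vv (x + n) = vv x := by
  unfold vv; rw [fr_add_int]

theorem vv_le (x : ℝ) : vv x ≤ 1 := by
  unfold vv
  have := Real.log_nonpos (fr_pos x).le (fr_le_one x)
  linarith

/-! ### periodicity of `om`, `Ph` -/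

theorem om_add_int (q : ℕ) (y : ℝ) (n : ℤ) : om q (y + n) = om q y := by
  unfold om
  rw [fr_add_int]

theorem periodic_int {f : ℝ → ℝ} (h : ∀ y, f (y + 1) = f y) (y : ℝ) (n : ℤ) :
    f (y + n) = f y := by
  have hp : Function.Periodic f 1 := h
  have := hp.int_mul n y
  simpa using this

theorem dl_eq (β : ℝ) (q : ℕ) : (q : ℝ) * β = dl β q + round ((q : ℝ) * β) := by
  unfold dl; ring

/-- moving by `m` steps moves `q x` by `m d_q` -/
theorem Ph_move (hP : ∀ q : ℕ, 1 ≤ q → ∀ y : ℝ, Ph q (y + 1) = Ph q y) {q : ℕ} (hq : 1 ≤ q)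
    (β x : ℝ) (m : ℤ) : Ph q (q * (x + m * β)) = Ph q (q * x + m * dl β q) := by
  have e : (q : ℝ) * (x + m * β) = (q * x + m * dl β q) + ((m * round ((q : ℝ) * β) : ℤ) : ℝ) := by
    push_cast
    have := dl_eq β q
    linear_combination (m : ℝ) * this
  rw [e, periodic_int (hP q hq)]

/-- moving by `b q` steps moves `q' x` by `b q' d_q` -/
theorem Ph_move' (hP : ∀ q : ℕ, 1 ≤ q → ∀ y : ℝ, Ph q (y + 1) = Ph q y) {q' : ℕ} (hq' : 1 ≤ q')
    (q b : ℕ) (β x : ℝ) : Ph q' (q' * (x + ((b * q : ℕ) : ℝ) * β)) =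
      Ph q' (q' * x + b * q' * dl β q) := by
  have e : (q' : ℝ) * (x + ((b * q : ℕ) : ℝ) * β) = (q' * x + b * q' * dl β q) +
      ((b * q' * round ((q : ℝ) * β) : ℤ) : ℝ) := by
    push_cast
    have := dl_eq β q
    linear_combination (b : ℝ) * q' * this
  rw [e, periodic_int (hP q' hq')]

theorem Bs_add (β : ℝ) (n m : ℕ) (x : ℝ) : Bs β (n + m) x = Bs β n x + Bs β m (x + n * β) := by
  unfold Bs
  rw [Finset.sum_range_add]
  congr 1
  refine Finset.sum_congr rfl fun l _ => ?_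
  congr 1
  push_cast
  ring

theorem om_den (β : ℚ) (x : ℝ) (n : ℤ) :
    om β.den (β.den * (x + n * β)) = om β.den (β.den * x) := by
  have e : (β.den : ℝ) * (x + n * β) = β.den * x + ((n * β.num : ℤ) : ℝ) := by
    have h1 : (β : ℝ) * β.den = β.num := by exact_mod_cast Rat.mul_den_eq_num β
    push_cast
    linear_combination (n : ℝ) * h1
  rw [e, om_add_int]

/-- the cocycle property -/
theorem Ls_add (β : ℚ) (q₀ : ℕ) (n m : ℕ) (x : ℝ) :
    Ls β q₀ (n + m) x = Ls β q₀ n x + Ls β q₀ m (x + n * β) := by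
  unfold Ls
  have h1 := om_den β x n
  rw [Int.cast_natCast] at h1
  rw [Bs_add, h1]
  have h2 : ∑ q ∈ JJ β q₀, (kk β q (x + ((n + m : ℕ) : ℝ) * β) - kk β q x) =
      ∑ q ∈ JJ β q₀, (kk β q (x + n * β) - kk β q x) +
      ∑ q ∈ JJ β q₀, (kk β q (x + n * β + m * β) - kk β q (x + n * β)) := by
    rw [← Finset.sum_add_distrib]
    refine Finset.sum_congr rfl fun q _ => ?_
    have e : x + ((n + m : ℕ) : ℝ) * β = x + n * β + m * β := by push_cast; ring
    rw [e]; ring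
  rw [h2]
  push_cast
  ring

theorem Ls_zero (β : ℚ) (q₀ : ℕ) (x : ℝ) : Ls β q₀ 0 x = 0 := by
  unfold Ls Bs
  simp

theorem kk_add_int (hP : ∀ q : ℕ, 1 ≤ q → ∀ y : ℝ, Ph q (y + 1) = Ph q y) (β : ℝ) {q : ℕ}
    (hq : 1 ≤ q) (x : ℝ) (n : ℤ) : kk β q (x + n) = kk β q x := by
  unfold kk
  have e : (q : ℝ) * (x + n) = q * x + ((q * n : ℤ) : ℝ) := by push_cast; ring
  rw [e, periodic_int (hP q hq)]

theorem mem_JJ {β : ℚ} {q₀ q : ℕ} : q ∈ JJ β q₀ ↔ q < β.den ∧ q₀ ≤ q ∧ Best β q := by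
  classical
  unfold JJ
  simp only [Finset.mem_filter, Finset.mem_range]

/-- period one in `x` -/
theorem Ls_add_int (hP : ∀ q : ℕ, 1 ≤ q → ∀ y : ℝ, Ph q (y + 1) = Ph q y) (β : ℚ) (q₀ : ℕ)
    (n : ℕ) (x : ℝ) (k : ℤ) : Ls β q₀ n (x + k) = Ls β q₀ n x := by
  unfold Ls
  have h1 : Bs β n (x + k) = Bs β n x := by
    unfold Bs
    refine Finset.sum_congr rfl fun l _ => ?_
    rw [add_right_comm, vv_add_int]
  have h2 : om β.den (β.den * (x + k)) = om β.den (β.den * x) := by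
    have e : (β.den : ℝ) * (x + k) = β.den * x + ((β.den * k : ℤ) : ℝ) := by push_cast; ring
    rw [e, om_add_int]
  rw [h1, h2]
  congr 1
  refine Finset.sum_congr rfl fun q hq => ?_
  have hq1 := (mem_JJ.1 hq).2.2.1
  rw [add_right_comm, kk_add_int hP β hq1, kk_add_int hP β hq1]

/-- sum over a full period of the rotation -/
theorem sum_period {Q : ℕ} (hQ : 0 < Q) (g : ℤ → ℝ) (hg : ∀ j, g (j + Q) = g j) (P : ℤ)
    (hP : IsCoprime P Q) (k : ℤ) :
    ∑ l ∈ Finset.range Q, g (l * P) = ∑ l ∈ Finset.range Q, g (l + k) := by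
  have : NeZero Q := ⟨hQ.ne'⟩
  -- the function on `ZMod Q`
  have hgz : ∀ (j n : ℤ), g (j + n * Q) = g j := by
    intro j n
    have hp : Function.Periodic g (Q : ℤ) := hg
    have := hp.int_mul n j
    simpa using this
  have hmod : ∀ j : ℤ, g j = g (((j : ZMod Q)).val : ℤ) := by
    intro j
    have h1 : (((j : ZMod Q)).val : ℤ) = j % Q := ZMod.val_intCast j
    rw [h1]
    have h2 := Int.emod_add_mul_ediv j Q
    conv_lhs => rw [← h2]
    rw [mul_comm (Q : ℤ), hgz]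
  have key : ∀ (a : ZMod Q → ZMod Q), Function.Bijective a → ∀ (φ : ℕ → ℤ),
      (∀ l : ℕ, l < Q → ((φ l : ℤ) : ZMod Q) = a (l : ZMod Q)) →
      ∑ l ∈ Finset.range Q, g (φ l) = ∑ b : ZMod Q, g (b.val : ℤ) := by
    intro a ha φ hφ
    have h1 : ∑ b : ZMod Q, g (b.val : ℤ) = ∑ b : ZMod Q, g ((a b).val : ℤ) :=
      (Function.Bijective.sum_comp ha (fun b => g (b.val : ℤ))).symm
    rw [h1]
    refine Finset.sum_bij (fun l _ => (l : ZMod Q)) (fun _ _ => Finset.mem_univ _) ?_ ?_ ?_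
    · intro l hl l' hl' h
      rw [Finset.mem_range] at hl hl'
      have := congrArg ZMod.val h
      rwa [ZMod.val_natCast_of_lt hl, ZMod.val_natCast_of_lt hl'] at this
    · intro b _
      exact ⟨b.val, Finset.mem_range.2 (ZMod.val_lt b), ZMod.natCast_zmod_val b⟩
    · intro l hl
      rw [Finset.mem_range] at hl
      rw [hmod (φ l), hφ l hl]
  have hu : IsUnit (P : ZMod Q) := by
    obtain ⟨u, v, huv⟩ := hP
    have h2 : ((u : ZMod Q)) * (P : ZMod Q) = 1 := by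
      have := congrArg (fun z : ℤ => (z : ZMod Q)) huv
      push_cast at this
      simpa using this
    exact IsUnit.of_mul_eq_one_right _ h2
  rw [key (fun b => b * P) ?_ (fun l => l * P) ?_, key (fun b => b + k) ?_ (fun l => l + k) ?_]
  · exact (Equiv.addRight ((k : ℤ) : ZMod Q)).bijective
  · intro l _; push_cast; ring
  · exact (Units.mulRight_bijective hu.unit)
  · intro l _; push_cast; ring

theorem Bs_den (β : ℚ) (x : ℝ) : Bs β β.den x = om β.den (β.den * x) := by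
  have hQ : 0 < β.den := β.den_pos
  have hQ' : (0 : ℝ) < β.den := by exact_mod_cast hQ
  obtain ⟨k, hk⟩ := exists_int_fr (β.den * x)
  have hβ : (β : ℝ) = β.num / β.den := by
    have h1 : (β : ℝ) * β.den = β.num := by exact_mod_cast Rat.mul_den_eq_num β
    rw [eq_div_iff hQ'.ne', h1]
  have h1 := sum_period hQ (fun j : ℤ => vv (x + j / β.den)) (by
    intro j
    have e : x + ((j + β.den : ℤ) : ℝ) / β.den = x + j / β.den + ((1 : ℤ) : ℝ) := by
      push_cast
      field_simp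
      ring
    rw [e, vv_add_int]) β.num (by
      have := β.reduced
      exact Int.isCoprime_iff_gcd_eq_one.2 (by simpa [Int.gcd, Nat.Coprime] using this)) (-k)
  have h2 : Bs β β.den x = ∑ l ∈ Finset.range β.den, vv (x + ((l * β.num : ℤ) : ℝ) / β.den) := by
    unfold Bs
    refine Finset.sum_congr rfl fun l _ => ?_
    rw [hβ]
    congr 1
    push_cast
    ring
  rw [h2, h1]
  unfold om
  refine Finset.sum_congr rfl fun l hl => ?_
  rw [Finset.mem_range] at hl
  have hl' : (l : ℝ) + 1 ≤ β.den := by exact_mod_cast hl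
  have hf0 := fr_pos (β.den * x)
  have hf1 := fr_le_one (β.den * x)
  have e : x + (((l : ℤ) + -k : ℤ) : ℝ) / β.den = (fr (β.den * x) + l) / β.den := by
    rw [eq_div_iff hQ'.ne', add_mul, div_mul_cancel₀ _ hQ'.ne']
    push_cast
    linarith
  rw [e]
  unfold vv
  rw [fr_eq_self]
  · exact div_pos (by positivity) hQ'
  · rw [div_le_one hQ']; linarith

/-- the full period gives zero -/
theorem Ls_den (hP : ∀ q : ℕ, 1 ≤ q → ∀ y : ℝ, Ph q (y + 1) = Ph q y) (β : ℚ) (q₀ : ℕ)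
    (x : ℝ) : Ls β q₀ β.den x = 0 := by
  unfold Ls
  have hQ' : (0 : ℝ) < β.den := by exact_mod_cast β.den_pos
  have h1 : (β.den : ℝ) * β = β.num := by
    rw [mul_comm]; exact_mod_cast Rat.mul_den_eq_num β
  have h2 : ∑ q ∈ JJ β q₀, (kk β q (x + β.den * β) - kk β q x) = 0 := by
    refine Finset.sum_eq_zero fun q hq => ?_
    rw [h1, kk_add_int hP β (mem_JJ.1 hq).2.2.1, sub_self]
  rw [h2, Bs_den, mul_div_cancel₀ _ hQ'.ne']
  ring

theorem Ls_mul_den (hP : ∀ q : ℕ, 1 ≤ q → ∀ y : ℝ, Ph q (y + 1) = Ph q y) (β : ℚ) (q₀ : ℕ)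
    (a : ℕ) (x : ℝ) : Ls β q₀ (a * β.den) x = 0 := by
  induction a generalizing x with
  | zero => rw [zero_mul, Ls_zero]
  | succ a ih => rw [add_mul, one_mul, Ls_add, ih, Ls_den hP, add_zero]

/-- reduction modulo the denominator -/
theorem Ls_mod (hP : ∀ q : ℕ, 1 ≤ q → ∀ y : ℝ, Ph q (y + 1) = Ph q y) (β : ℚ) (q₀ : ℕ)
    (n : ℕ) (x : ℝ) : Ls β q₀ n x = Ls β q₀ (n % β.den) x ∧
      ∃ k : ℤ, x + n * β = x + ((n % β.den : ℕ) : ℝ) * β + k := by
  have h1 : (β.den : ℝ) * β = β.num := by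
    rw [mul_comm]; exact_mod_cast Rat.mul_den_eq_num β
  obtain ⟨a, ha⟩ : ∃ a, a = n / β.den := ⟨_, rfl⟩
  have h2 : n = a * β.den + n % β.den := by
    rw [mul_comm, ha]; exact (Nat.div_add_mod n β.den).symm
  constructor
  · conv_lhs => rw [h2]
    rw [Ls_add, Ls_mul_den hP, zero_add]
    have e : x + ((a * β.den : ℕ) : ℝ) * β = x + (((a : ℤ) * β.num : ℤ) : ℝ) := by
      push_cast
      rw [mul_assoc, h1]
    rw [e, Ls_add_int hP]
  · refine ⟨(a : ℤ) * β.num, ?_⟩
    have e : (n : ℝ) = (a : ℝ) * β.den + ((n % β.den : ℕ) : ℝ) := by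
      exact_mod_cast h2
    conv_lhs => rw [e]
    push_cast
    linear_combination (a : ℝ) * h1

end Pool.Agent.Bishop
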