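import Pool.Agent.Lib_helper35.Bishop.M4a

/-!
# Module M4, part b: elementary estimates, sparse sums, cross terms
-/

set_option autoImplicit false

open MeasureTheory Metric Set

namespace Pool.Agent.Bishop

/-! ### elementary inequalities -/

theorem mul_log_inv_le_sqrt {u : ℝ} (h0 : 0 < u) : u * Real.log (1 / u) ≤ 2 * √u := by
  have hs : 0 < √u := Real.sqrt_pos.2 h0
  have h2 : Real.log (1 / u) = 2 * Real.log (1 / √u) := by
    rw [Real.log_div one_ne_zero h0.ne', Real.log_div one_ne_zero hs.ne', Real.log_sqrt h0.le,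
      Real.log_one]
    ring
  have h3 : Real.log (1 / √u) ≤ 1 / √u - 1 := Real.log_le_sub_one_of_pos (by positivity)
  have h5 : Real.log (1 / √u) ≤ 1 / √u := by linarith
  calc u * Real.log (1 / u) = u * (2 * Real.log (1 / √u)) := by rw [h2]
    _ ≤ u * (2 * (1 / √u)) := by gcongr
    _ = 2 * (u / √u) := by ring
    _ = 2 * √u := by rw [Real.div_sqrt]

theorem mul_log_inv_le_one {u : ℝ} (h0 : 0 < u) : u * Real.log (1 / u) ≤ 1 := by
  have h3 : Real.log (1 / u) ≤ 1 / u - 1 := Real.log_le_sub_one_of_pos (by positivity)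
  calc u * Real.log (1 / u) ≤ u * (1 / u - 1) := by gcongr
    _ = 1 - u := by field_simp
    _ ≤ 1 := by linarith

theorem mul_log_inv_mono {u v : ℝ} (h0 : 0 < u) (h1 : u ≤ v) (h2 : v ≤ 1) :
    u * Real.log (1 / u) ≤ v * (1 + Real.log (1 / v)) := by
  have hv : 0 < v := h0.trans_le h1
  have e : Real.log (1 / u) = Real.log (1 / v) + Real.log (v / u) := by
    rw [← Real.log_mul (by positivity) (by positivity)]
    congr 1
    field_simp
  have h3 : Real.log (v / u) ≤ v / u - 1 := Real.log_le_sub_one_of_pos (by positivity)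
  have h4 : 0 ≤ Real.log (1 / v) := Real.log_nonneg (by rw [le_div_iff₀ hv]; linarith)
  have h5 : u * Real.log (v / u) ≤ v - u := by
    calc u * Real.log (v / u) ≤ u * (v / u - 1) := by gcongr
      _ = v - u := by field_simp
  have h6 : u * Real.log (1 / v) ≤ v * Real.log (1 / v) := by gcongr
  rw [e]
  nlinarith

/-! ### sparse sums -/

/-- at most two elements in each block `[M, 2 M)` -/
def Sparse (s : Finset ℕ) : Prop :=
  ∀ (M : ℕ) (s' : Finset ℕ), s' ⊆ s → (∀ q ∈ s', M ≤ q ∧ q < 2 * M) → s'.card ≤ 2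

theorem Sparse.mono {s t : Finset ℕ} (h : Sparse t) (hst : s ⊆ t) : Sparse s :=
  fun M s' hs' hb => h M s' (hs'.trans hst) hb

theorem Sparse.sum_le : ∀ (N : ℕ) (s : Finset ℕ), Sparse s → (∀ q ∈ s, q ≤ N) →
    ∑ q ∈ s, q ≤ 4 * N := by
  intro N
  induction N using Nat.strong_induction_on with
  | _ N ih =>
    intro s hs hN
    rcases Nat.eq_zero_or_pos N with rfl | hpos
    · have : ∑ q ∈ s, q = 0 := Finset.sum_eq_zero fun q hq => Nat.le_zero.1 (hN q hq)
      omega
    · have h1 := Finset.sum_filter_add_sum_filter_not s (fun q => q ≤ N / 2) (fun q => q)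
      have h2 : ∑ q ∈ s.filter (fun q => q ≤ N / 2), q ≤ 4 * (N / 2) :=
        ih (N / 2) (by omega) _ (hs.mono (Finset.filter_subset _ _))
          fun q hq => (Finset.mem_filter.1 hq).2
      have h3 : (s.filter (fun q => ¬ q ≤ N / 2)).card ≤ 2 := by
        refine hs (N / 2 + 1) _ (Finset.filter_subset _ _) fun q hq => ?_
        have h := Finset.mem_filter.1 hq
        have := hN q h.1
        omega
      have h4 : ∑ q ∈ s.filter (fun q => ¬ q ≤ N / 2), q ≤ 2 * N := by
        refine (Finset.sum_le_card_nsmul _ _ N fun q hq => hN q (Finset.mem_filter.1 hq).1).trans ?_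
        rw [smul_eq_mul]
        exact Nat.mul_le_mul_right N h3
      omega

theorem Sparse.sum_sqrt : ∀ (k m : ℕ) (s : Finset ℕ), 1 ≤ m → Sparse s →
    (∀ q ∈ s, m ≤ q) → (∀ q ∈ s, q ≤ m + k) → ∑ q ∈ s, √(1 / (q : ℝ)) ≤ 7 / √(m : ℝ) := by
  intro k
  induction k using Nat.strong_induction_on with
  | _ k ih =>
    intro m s hm hs hlo hhi
    have hm' : (1 : ℝ) ≤ m := by exact_mod_cast hm
    have hm0 : (0 : ℝ) < m := by linarith
    have hsm : 0 < √(m : ℝ) := Real.sqrt_pos.2 hm0
    have h1 := Finset.sum_filter_add_sum_filter_not s (fun q => q < 2 * m)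
      (fun q => √(1 / (q : ℝ)))
    have h3 : (s.filter (fun q => q < 2 * m)).card ≤ 2 :=
      hs m _ (Finset.filter_subset _ _) fun q hq =>
        ⟨hlo q (Finset.mem_filter.1 hq).1, (Finset.mem_filter.1 hq).2⟩
    have h4 : ∑ q ∈ s.filter (fun q => q < 2 * m), √(1 / (q : ℝ)) ≤ 2 * (1 / √(m : ℝ)) := by
      refine (Finset.sum_le_card_nsmul _ _ (1 / √(m : ℝ)) fun q hq => ?_).trans ?_
      · have h5 : (m : ℝ) ≤ q := by exact_mod_cast hlo q (Finset.mem_filter.1 hq).1
        rw [← Real.sqrt_one, ← Real.sqrt_div zero_le_one, Real.sqrt_one]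
        exact Real.sqrt_le_sqrt (one_div_le_one_div_of_le hm0 h5)
      · rw [nsmul_eq_mul]
        have : ((s.filter (fun q => q < 2 * m)).card : ℝ) ≤ 2 := by exact_mod_cast h3
        gcongr
    have h5 : ∑ q ∈ s.filter (fun q => ¬ q < 2 * m), √(1 / (q : ℝ)) ≤ 5 / √(m : ℝ) := by
      have hs2 : (14 : ℝ) / 10 ≤ √2 := by
        rw [show (14 : ℝ) / 10 = √((14 / 10) ^ 2) from (Real.sqrt_sq (by norm_num)).symm]
        exact Real.sqrt_le_sqrt (by norm_num)
      rcases Nat.lt_or_ge k m with hk | hk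
      · have : s.filter (fun q => ¬ q < 2 * m) = ∅ := by
          rw [Finset.filter_eq_empty_iff]
          intro q hq
          have := hhi q hq
          omega
        rw [this, Finset.sum_empty]
        positivity
      · have h6 := ih (k - m) (by omega) (2 * m) (s.filter (fun q => ¬ q < 2 * m)) (by omega)
          (hs.mono (Finset.filter_subset _ _)) (fun q hq => by
            have := (Finset.mem_filter.1 hq).2
            omega) (fun q hq => by
            have := hhi q (Finset.mem_filter.1 hq).1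
            omega)
        refine h6.trans ?_
        have e : √(((2 * m : ℕ) : ℝ)) = √2 * √(m : ℝ) := by
          push_cast
          exact Real.sqrt_mul (by norm_num) _
        rw [e, div_le_div_iff₀ (by positivity) hsm]
        nlinarith
    rw [← h1]
    have h6 : (2 : ℝ) * (1 / √(m : ℝ)) + 5 / √(m : ℝ) = 7 / √(m : ℝ) := by ring
    linarith

/-! ### cross terms -/

theorem Ph_small (h2 : M2_Stmt) {q : ℕ} (hq : 1 ≤ q) (a δ : ℝ) (h0 : δ ≠ 0) (h1 : |δ| ≤ 1) :
    |Ph q (a + δ) - Ph q a| ≤ |δ| * (2 + Real.log q + Real.log (1 / |δ|)) := by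
  obtain ⟨-, -, -, -, -, -, -, -, -, -, hsm⟩ := h2
  rcases lt_or_gt_of_ne h0 with h | h
  · have h3 := hsm q hq (a + δ) a (by linarith) (by
      have := neg_abs_le δ
      linarith)
    have e : a - (a + δ) = |δ| := by rw [abs_of_neg h]; ring
    rw [e, abs_sub_comm] at h3
    exact h3
  · have h3 := hsm q hq a (a + δ) (by linarith) (by
      have := le_abs_self δ
      linarith)
    have e : (a + δ) - a = |δ| := by rw [abs_of_pos h]; ring
    rw [e] at h3
    exact h3

theorem kk_sub (hP : ∀ q : ℕ, 1 ≤ q → ∀ y : ℝ, Ph q (y + 1) = Ph q y) {q : ℕ} (hq : 1 ≤ q)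
    (β z : ℝ) (t : ℤ) (m : ℕ) :
    kk β q (z + t * β + m * β) - kk β q (z + t * β) =
      (Ph q (q * z + t * dl β q + m * dl β q) - Ph q (q * z + t * dl β q)) / (q * dl β q) := by
  unfold kk
  have h1 : Ph q (q * (z + t * β)) = Ph q (q * z + t * dl β q) := Ph_move hP hq β z t
  have h2 : Ph q (q * (z + t * β + m * β)) = Ph q (q * z + t * dl β q + m * dl β q) := by
    have := Ph_move hP hq β z (t + m)
    rw [show z + t * β + m * β = z + ((t + m : ℤ) : ℝ) * β by push_cast; ring, this]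
    congr 1
    push_cast
    ring
  rw [h1, h2, ← sub_div]

/-- points of the orbit, near the good point -/
theorem fr_orbit {q : ℕ} (hq : 1 ≤ q) {β z c₁ T : ℝ} {t : ℝ} (hT : |t| ≤ T) (hc₁ : 0 < c₁)
    (hz : c₁ / q ≤ fr (q * z) ∧ fr (q * z) ≤ 1 - c₁ / q)
    (hs : T * |dl β q| ≤ c₁ / (4 * q)) :
    3 * c₁ / (4 * q) ≤ fr (q * z) + t * dl β q ∧
      fr (q * z) + t * dl β q ≤ 1 - 3 * c₁ / (4 * q) := by
  have hq0 : (0 : ℝ) < q := by exact_mod_cast hq
  have h1 : |t * dl β q| ≤ c₁ / (4 * q) := by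
    rw [abs_mul]
    exact (mul_le_mul_of_nonneg_right hT (abs_nonneg _)).trans hs
  have h2 := abs_le.1 h1
  have h3 : c₁ / q = 4 * (c₁ / (4 * q)) := by field_simp
  have h4 : 3 * c₁ / (4 * q) = 3 * (c₁ / (4 * q)) := by ring
  rw [h3] at hz
  rw [h4]
  constructor <;> linarith [hz.1, hz.2, h2.1, h2.2]

theorem om_bound (h2 : M2_Stmt) {q : ℕ} (hq : 1 ≤ q) {c₁ y : ℝ} (hc₁ : 0 < c₁)
    (hy0 : c₁ / (4 * q) ≤ fr y) :
    |om q y| ≤ 1 + 2 * Real.log q + Real.log (4 / c₁) := by
  obtain ⟨-, -, -, hb, -⟩ := h2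
  have hq1 : (1 : ℝ) ≤ q := by exact_mod_cast hq
  have hq0 : (0 : ℝ) < q := by linarith
  have hlq : 0 ≤ Real.log q := Real.log_nonneg hq1
  obtain ⟨h3, h4⟩ := hb q hq y
  have h5 : -(Real.log (4 / c₁)) - Real.log q ≤ Real.log (fr y) := by
    have e : -(Real.log (4 / c₁)) - Real.log q = Real.log (c₁ / (4 * q)) := by
      rw [Real.log_div (by norm_num) hc₁.ne', Real.log_div hc₁.ne' (by positivity),
        Real.log_mul (by norm_num) hq0.ne']
      ring
    rw [e]
    exact Real.log_le_log (by positivity) hy0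
  have h6 : Real.log (c₁ / (4 * q)) ≤ 0 := by
    refine Real.log_nonpos (by positivity) (hy0.trans (fr_le_one y))
  have h7 : -(Real.log (4 / c₁)) - Real.log q = Real.log (c₁ / (4 * q)) := by
    rw [Real.log_div (by norm_num) hc₁.ne', Real.log_div hc₁.ne' (by positivity),
      Real.log_mul (by norm_num) hq0.ne']
    ring
  rw [abs_le]
  constructor <;> linarith

/-- the cross terms of the large denominators -/
theorem cross_big (h2 : M2_Stmt) {β : ℝ} {q m T : ℕ} {c₁ z : ℝ} {t : ℤ} (hq : 1 ≤ q)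
    (hm : 1 ≤ m) (hd : dl β q ≠ 0) (hmd : (m : ℝ) * |dl β q| ≤ 1) (hT : |(t : ℝ)| ≤ T)
    (hT' : |(t : ℝ) + m| ≤ T) (hmT : m ≤ T) (hc₁ : 0 < c₁)
    (hz : c₁ / q ≤ fr (q * z) ∧ fr (q * z) ≤ 1 - c₁ / q) :
    |kk β q (z + t * β + m * β) - kk β q (z + t * β)| ≤
      (m / q) * (2 + Real.log (4 / c₁) + Real.log (T + 2) + 2 * Real.log q) := by
  have hP := h2.2.2.2.2.2.1
  have hder := h2.2.2.2.2.2.2.2.2.1
  have hq1 : (1 : ℝ) ≤ q := by exact_mod_cast hq
  have hq0 : (0 : ℝ) < q := by linarith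
  have hm1 : (1 : ℝ) ≤ m := by exact_mod_cast hm
  have hm0 : (0 : ℝ) < m := by linarith
  have hT1 : (1 : ℝ) ≤ T := by exact_mod_cast hm.trans hmT
  have hd0 : 0 < |dl β q| := abs_pos.2 hd
  have hlq : 0 ≤ Real.log q := Real.log_nonneg hq1
  have hlT : 0 ≤ Real.log (T + 2) := Real.log_nonneg (by linarith)
  have hlT' : Real.log T ≤ Real.log (T + 2) := Real.log_le_log (by linarith) (by linarith)
  rw [kk_sub hP hq]
  -- reduce to the increment of `Ph`
  have key : |Ph q (q * z + t * dl β q + m * dl β q) - Ph q (q * z + t * dl β q)| ≤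
      (m * |dl β q|) * (2 + Real.log (4 / c₁) + Real.log (T + 2) + 2 * Real.log q) := by
    rcases le_or_gt ((T : ℝ) * |dl β q|) (c₁ / (4 * q)) with hs | hs
    · obtain ⟨k, hk⟩ := exists_int_fr (q * z)
      have a1 := fr_orbit hq hT hc₁ hz hs
      have a2 := fr_orbit (t := t + m) hq hT' hc₁ hz hs
      have e1 : Ph q (q * z + t * dl β q) = Ph q (fr (q * z) + t * dl β q) := by
        rw [show (q : ℝ) * z + t * dl β q = fr (q * z) + t * dl β q + k by linarith,
          periodic_int (hP q hq)]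
      have e2 : Ph q (q * z + t * dl β q + m * dl β q) = Ph q (fr (q * z) + (t + m) * dl β q) := by
        rw [show (q : ℝ) * z + t * dl β q + m * dl β q = fr (q * z) + (t + m) * dl β q + k by
          linarith, periodic_int (hP q hq)]
      rw [e1, e2]
      have hcq : 0 < c₁ / (4 * q) := by positivity
      have hcq3 : 3 * c₁ / (4 * q) = 3 * (c₁ / (4 * q)) := by ring
      have h3 := Convex.norm_image_sub_le_of_norm_hasDerivWithin_le (𝕜 := ℝ) (f := Ph q)
        (f' := om q) (C := 1 + 2 * Real.log q + Real.log (4 / c₁))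
        (s := Icc (3 * c₁ / (4 * q)) (1 - 3 * c₁ / (4 * q)))
        (x := fr (q * z) + t * dl β q) (y := fr (q * z) + (t + m) * dl β q)
        (fun y hy => (hder q hq y (by linarith [hy.1]) (by linarith [hy.2])).hasDerivWithinAt)
        (fun y hy => by
          rw [Real.norm_eq_abs]
          refine om_bound h2 hq hc₁ ?_
          rw [fr_eq_self (by linarith [hy.1]) (by linarith [hy.2])]
          linarith [hy.1]) (convex_Icc _ _) ⟨a1.1, a1.2⟩ ⟨a2.1, a2.2⟩
      rw [Real.norm_eq_abs, Real.norm_eq_abs] at h3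
      have e3 : fr (q * z) + (t + m) * dl β q - (fr (q * z) + t * dl β q) = m * dl β q := by ring
      rw [e3, abs_mul, abs_of_pos hm0] at h3
      refine h3.trans ?_
      rw [mul_comm]
      have : 0 ≤ (m : ℝ) * |dl β q| := by positivity
      refine mul_le_mul_of_nonneg_left ?_ this
      linarith
    · have hmdn : (m : ℝ) * dl β q ≠ 0 := mul_ne_zero hm0.ne' hd
      have hab : |(m : ℝ) * dl β q| = m * |dl β q| := by rw [abs_mul, abs_of_pos hm0]
      have h3 := Ph_small h2 hq (q * z + t * dl β q) (m * dl β q) hmdn (by rw [hab]; exact hmd)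
      rw [hab] at h3
      refine h3.trans ?_
      have : 0 ≤ (m : ℝ) * |dl β q| := by positivity
      refine mul_le_mul_of_nonneg_left ?_ this
      have h4 : Real.log (1 / (m * |dl β q|)) ≤ Real.log (4 / c₁) + Real.log q + Real.log T := by
        rw [← Real.log_mul (by positivity) (by positivity),
          ← Real.log_mul (by positivity) (by positivity)]
        refine Real.log_le_log (by positivity) ?_
        rw [div_lt_iff₀ (by positivity)] at hs
        rw [div_le_iff₀ (by positivity)]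
        have h5 : c₁ ≤ 4 * q * T * (m * |dl β q|) := by
          calc c₁ ≤ (T : ℝ) * |dl β q| * (4 * q) := hs.le
            _ = 4 * q * T * (1 * |dl β q|) := by ring
            _ ≤ 4 * q * T * (m * |dl β q|) := by gcongr
        calc (1 : ℝ) = c₁ / c₁ := (div_self hc₁.ne').symm
          _ ≤ (4 * q * T * (m * |dl β q|)) / c₁ := by gcongr
          _ = 4 / c₁ * q * T * (m * |dl β q|) := by ring
      linarith
  rw [abs_div, abs_mul, abs_of_pos hq0, div_le_iff₀ (by positivity)]
  refine key.trans (le_of_eq ?_)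
  field_simp

/-- the cross terms of the small denominators -/
theorem cross_small (h2 : M2_Stmt) {β : ℝ} {q q' nx b : ℕ} (hq' : 1 ≤ q') (hqq : q' < q)
    (hb : 1 ≤ b) (hd : dl β q ≠ 0) (hd' : dl β q' ≠ 0)
    (hmd : ((b * q : ℕ) : ℝ) * |dl β q| ≤ 1) (hnx : 1 ≤ 2 * (nx : ℝ) * |dl β q'|) (x : ℝ) :
    |kk β q' (x + (b * q : ℕ) * β) - kk β q' x| ≤
      (2 * nx / q) * (3 + Real.log q) := by
  have hP := h2.2.2.2.2.2.1
  have hq'1 : (1 : ℝ) ≤ q' := by exact_mod_cast hq'
  have hq'0 : (0 : ℝ) < q' := by linarith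
  have hqq' : (q' : ℝ) < q := by exact_mod_cast hqq
  have hq0 : (0 : ℝ) < q := by linarith
  have hb0 : (0 : ℝ) < b := by exact_mod_cast hb
  have hd0 : 0 < |dl β q| := abs_pos.2 hd
  have hd'0 : 0 < |dl β q'| := abs_pos.2 hd'
  unfold kk
  rw [Ph_move' hP hq', ← sub_div]
  have hδ : (b : ℝ) * q' * dl β q ≠ 0 := by
    refine mul_ne_zero (by positivity) hd
  have hab : |(b : ℝ) * q' * dl β q| = b * q' * |dl β q| := by
    rw [abs_mul, abs_of_pos (by positivity)]
  have hle : (b : ℝ) * q' * |dl β q| ≤ q' / q := by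
    rw [le_div_iff₀ hq0]
    push_cast at hmd
    calc (b : ℝ) * q' * |dl β q| * q = q' * (b * q * |dl β q|) := by ring
      _ ≤ q' * 1 := by gcongr
      _ = q' := mul_one _
  have hle1 : (q' : ℝ) / q ≤ 1 := by rw [div_le_one hq0]; exact hqq'.le
  have h3 := Ph_small h2 hq' (q' * x) (b * q' * dl β q) hδ (by rw [hab]; exact hle.trans hle1)
  rw [hab] at h3
  have hpos : 0 < (b : ℝ) * q' * |dl β q| := by positivity
  have h4 := mul_log_inv_mono hpos hle hle1
  have hlq' : 0 ≤ Real.log q' := Real.log_nonneg hq'1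
  have h5 : |Ph q' (q' * x + b * q' * dl β q) - Ph q' (q' * x)| ≤ q' / q * (3 + Real.log q) := by
    refine h3.trans ?_
    have e : Real.log (1 / ((q' : ℝ) / q)) = Real.log q - Real.log q' := by
      rw [one_div_div, Real.log_div hq0.ne' hq'0.ne']
    rw [e] at h4
    have h6 : (b : ℝ) * q' * |dl β q| * (2 + Real.log q') ≤ q' / q * (2 + Real.log q') := by
      gcongr
    calc (b : ℝ) * q' * |dl β q| * (2 + Real.log q' + Real.log (1 / (b * q' * |dl β q|)))
        = (b : ℝ) * q' * |dl β q| * (2 + Real.log q') +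
          (b : ℝ) * q' * |dl β q| * Real.log (1 / (b * q' * |dl β q|)) := by ring
      _ ≤ q' / q * (2 + Real.log q') + q' / q * (1 + (Real.log q - Real.log q')) :=
        add_le_add h6 h4
      _ = q' / q * (3 + Real.log q) := by ring
  have hlq : 0 ≤ Real.log q := Real.log_nonneg (by linarith)
  rw [abs_div, abs_mul, abs_of_pos hq'0, div_le_iff₀ (by positivity)]
  refine h5.trans ?_
  calc (q' : ℝ) / q * (3 + Real.log q) = (q' / q * (3 + Real.log q)) * 1 := by ring
    _ ≤ (q' / q * (3 + Real.log q)) * (2 * (nx : ℝ) * |dl β q'|) := by gcongr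
    _ = 2 * nx / q * (3 + Real.log q) * (q' * |dl β q'|) := by ring

end Pool.Agent.Bishop
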